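import Pool.Agent.Helper90.MZ.StmtsA

/-!
# Prime models inside a model
-/

set_option autoImplicit false

namespace Pool.Agent.Helper90.MZ

open Pool.Agent.Helper90.TS

theorem prim_self {V G : Type} [Group G] [MulAction G V] (X : Ctx V G) (A : Set V) (n : ℕ)
    (c : Fin n → V) (hc : Set.range c ⊆ A) : Isl X A c := by
  refine ⟨{c}, ov_mono X hc (ov_singleton c), rfl, ?_⟩
  intro x hx
  rw [Set.mem_singleton_iff] at hx
  subst hx
  exact eqv_refl A x

theorem st_PRIM (_h1 : ST_ATMB) (h2 : ST_ISLB) : ST_PRIM := by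
  classical
  intro V G _ _ X A N hN hAN
  have hNc : N.Countable := hN.1
  let F : Set (Set V) := {M | A ⊆ M ∧ M ⊆ N ∧
    ∀ (n : ℕ) (c : Fin n → V), Set.range c ⊆ M → Isl X A c}
  have hA : A ∈ F := ⟨subset_rfl, hAN, fun n c hc => prim_self X A n c hc⟩
  obtain ⟨M, hAM, hM⟩ := zorn_subset_nonempty F (by
    intro C hC hch hne
    refine ⟨⋃₀ C, ⟨?_, ?_, ?_⟩, fun s hs => Set.subset_sUnion_of_mem hs⟩
    · obtain ⟨s, hs⟩ := hne
      exact (hC hs).1.trans (Set.subset_sUnion_of_mem hs)
    · exact Set.sUnion_subset fun s hs => (hC hs).2.1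
    · intro n c hc
      obtain ⟨s, hs, hcs⟩ := hch.directedOn.exists_mem_subset_of_finite_of_subset_sUnion hne
        (Set.finite_range c) hc
      exact (hC hs).2.2 n c hcs) A hA
  have hMN : M ⊆ N := hM.prop.2.1
  have hMc : M.Countable := hNc.mono hMN
  have hAc : A.Countable := hNc.mono hAN
  have hat := hM.prop.2.2
  refine ⟨M, hMN, ⟨hMc, ?_⟩, hAM, hat⟩
  intro n D hD hDne
  -- an isolated point
  obtain ⟨E, hED, hE, hEne, hEeq⟩ := st_ISO a_tree st_TYPE V G X M hMc (Fin n) D hD hDne
  obtain ⟨x, hxE, hxN⟩ := hN.2 n E (ov_mono X hMN hE) hEne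
  refine ⟨x, hED hxE, ?_⟩
  -- `M ∪ range x` is atomic over `A`
  have hnew : M ∪ Set.range x ∈ F := by
    refine ⟨hAM.trans Set.subset_union_left, Set.union_subset hMN hxN, ?_⟩
    intro k c hc
    -- the support of `E`
    obtain ⟨m, a, E', ha, hE', hEE'⟩ := st_FSUP V G X M hMc (Fin n) E hE
    have hEa : X.Ov (Set.range a) E := by
      have := ov_sec hE' a
      rw [Set.empty_union] at this
      rw [hEE']
      exact this
    -- a finite enumeration of the part of `c` in `M`
    obtain ⟨l, b, hb⟩ : ∃ (l : ℕ) (b : Fin l → V), Set.range b = Set.range c ∩ M := by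
      have hfin : (Set.range c ∩ M).Finite := (Set.finite_range c).inter_of_left M
      obtain ⟨l, b, _, hb⟩ := hfin.fin_param
      exact ⟨l, b, hb⟩
    have hb' : Set.range b ⊆ M := by
      rw [hb]
      exact Set.inter_subset_right
    -- the tuple `a, b` in `M`
    let w : Fin (m + l) → V := Fin.append a b
    have hw : Set.range w = Set.range a ∪ Set.range b := by
      ext y
      constructor
      · rintro ⟨i, rfl⟩
        refine Fin.addCases (fun i => ?_) (fun i => ?_) i
        · left
          exact ⟨i, by simp [w]⟩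
        · right
          exact ⟨i, by simp [w]⟩
      · rintro (⟨i, rfl⟩ | ⟨i, rfl⟩)
        · exact ⟨Fin.castAdd l i, by simp [w]⟩
        · exact ⟨Fin.natAdd m i, by simp [w]⟩
    have hwM : Set.range w ⊆ M := by
      rw [hw]
      exact Set.union_subset ha hb'
    have hwI : Isl X A w := hat _ w hwM
    have hxI : Isl X (A ∪ Set.range w) x := by
      refine ⟨E, ov_mono X ?_ hEa, hxE, ?_⟩
      · rw [hw]
        exact Set.subset_union_left.trans Set.subset_union_right
      · intro y hy
        exact eqv_mono (Set.union_subset hAM hwM) (hEeq x hxE y hy)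
    have hwx : Isl X A (Sum.elim w x) := ((h2 V G X A hAc (Fin (m + l)) w).1 (Fin n) x).2
      ⟨hwI, hxI⟩
    refine (h2 V G X A hAc (Fin (m + l) ⊕ Fin n) (Sum.elim w x)).2.1 (Fin k) c hwx ?_
    rintro _ ⟨i, rfl⟩
    right
    rw [Set.Sum.elim_range]
    rcases hc ⟨i, rfl⟩ with h | h
    · left
      rw [hw, hb]
      exact Or.inr ⟨⟨i, rfl⟩, h⟩
    · exact Or.inr h
  have := hM.le_of_ge hnew Set.subset_union_left
  exact Set.subset_union_right.trans this

end Pool.Agent.Helper90.MZ
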