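import Pool.Agent.Helper90.MZ.StmtsA

/-!
# Finite sets have finite weight
-/

set_option autoImplicit false

namespace Pool.Agent.Helper90.MZ

open Pool.Agent.Helper90.TS

/-- the main step: the chain is free from the family -/
theorem wt_main (h1 : ST_WBB) (h3 : ST_DOM) (h6 : ST_IND) {V G : Type} [Group G] [MulAction G V]
    (X : Ctx V G) (A u M N : Set V) (k : ℕ) (K : ℕ → Set V) (p : ℕ → Ty V)
    (hA : A.Countable) (hu : u.Countable) (hM : Mdl X M) (hAM : A ⊆ M)
    (hMu : SI X A M u) (hNat : Atm X (M ∪ u) N) (hch : Chn X M N u k K p)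
    (Y : Set V) (hY : Y.Countable) (huY : SI X A u Y) (m : ℕ) (S : Fin m → Set V)
    (hS : ∀ i, (S i).Countable) (hI : Ind X (A ∪ Y) S)
    (hN : SI X (A ∪ u) N (Y ∪ ⋃ i, S i)) :
    ∃ J : Finset (Fin m), J.card ≤ k ∧ SI X (A ∪ Y) (⋃ i ∈ {i | i ∉ J}, S i) u := by
  classical
  have hMc : M.Countable := hM.1
  have hNc : N.Countable := hNat.1.1
  have hMN : M ⊆ N := Set.subset_union_left.trans hNat.2.1
  have hSs : (⋃ i, S i).Countable := Set.countable_iUnion hS
  have hAu : (A ∪ u).Countable := hA.union hu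
  have hAY : (A ∪ Y).Countable := hA.union hY
  have hMY : (M ∪ Y).Countable := hMc.union hY
  have hYS : (Y ∪ ⋃ i, S i).Countable := hY.union hSs
  have hT : ∀ J : Finset (Fin m), (⋃ i ∈ {i | i ∉ J}, S i).Countable := fun J =>
    hSs.mono (Set.iUnion₂_subset fun i _ => Set.subset_iUnion S i)
  have hTS : ∀ J : Finset (Fin m), (⋃ i ∈ {i | i ∉ J}, S i) ⊆ ⋃ i, S i := fun J =>
    Set.iUnion₂_subset fun i _ => Set.subset_iUnion S i
  -- (a)
  have ha : SI X A M (u ∪ (Y ∪ ⋃ i, S i)) :=
    si_trans hA hMc hu hYS hMu (si_left hMN hN)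
  -- (b)
  have hb0 : SI X A M (Y ∪ ⋃ i, S i) :=
    si_right hA hMc (hu.union hYS) Set.subset_union_right ha
  have hb1 : SI X (A ∪ Y) (⋃ i, S i) M :=
    si_symm hAY hMc hSs ((si_union hA hMc hY hSs).1 hb0).2
  have e1 : A ∪ Y ∪ M = M ∪ Y := by
    ext x
    constructor
    · rintro ((h | h) | h)
      · exact Or.inl (hAM h)
      · exact Or.inr h
      · exact Or.inl h
    · rintro (h | h)
      · exact Or.inr h
      · exact Or.inl (Or.inr h)
  have hb : Ind X (M ∪ Y) S := by
    have := (h6 V G X (A ∪ Y) hAY).2.2.2.1 (Fin m) S M hS hMc hI hb1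
    rwa [e1] at this
  -- (c)
  have hc0 : SI X A M (u ∪ Y) := by
    refine si_right hA hMc (hu.union hYS) ?_ ha
    exact Set.union_subset_union_right u Set.subset_union_left
  have hc1 : SI X (A ∪ Y) M u := by
    rw [Set.union_comm] at hc0
    exact ((si_union hA hMc hY hu).1 hc0).2
  have hc2 : SI X A (Y ∪ M) u :=
    si_transl hA hY hu hMc (si_symm hA hu hY huY) hc1
  have hc3 : SI X A u (M ∪ Y) := by
    rw [Set.union_comm]
    exact si_symm hA (hY.union hMc) hu hc2
  have hc : SI X M u Y := by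
    have := ((si_union hA hu hMc hY).1 hc3).2
    rwa [Set.union_eq_self_of_subset_left hAM] at this
  -- (d)
  have hd : SI X M Y N := (h3 V G X M u Y N hM hu hY hNat (si_symm hMc hu hY hc)).1
  -- the sets of the chain
  have hK : ∀ i ≤ k, M ⊆ K i := by
    intro i
    induction i with
    | zero =>
      intro _
      rw [hch.zero]
    | succ i ih =>
      intro hi
      have h := (hch.atm i (by omega)).2.1
      exact (ih (by omega)).trans (Set.subset_union_left.trans h)
  -- (e)
  have he : ∀ i ≤ k, ∃ J : Finset (Fin m), J.card ≤ i ∧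
      SI X (M ∪ Y) (⋃ j ∈ {j | j ∉ J}, S j) (K i) := by
    intro i
    induction i with
    | zero =>
      intro _
      refine ⟨∅, by simp, ?_⟩
      rw [hch.zero]
      exact si_self_right Set.subset_union_left
    | succ i ih =>
      intro hi
      obtain ⟨J, hJc, hJ⟩ := ih (by omega)
      have hKi : Mdl X (K i) := hch.mdl i (by omega)
      have hKs : Mdl X (K (i + 1)) := hch.mdl (i + 1) hi
      have hKic : (K i).Countable := hKi.1
      have hKsc : (K (i + 1)).Countable := hKs.1
      have hKN : K i ⊆ N := hch.sub i (by omega)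
      have hKsN : K (i + 1) ⊆ N := hch.sub (i + 1) hi
      have hMK : M ⊆ K i := hK i (by omega)
      obtain ⟨hsr, hpA, hz⟩ := hch.sr i (by omega)
      have hat := hch.atm i (by omega)
      have hzc : (Set.range (p i).z).Countable := Set.countable_range _
      have hKY : (K i ∪ Y).Countable := hKic.union hY
      -- N and Y over `K i`
      have hd1 : SI X (K i) Y N := si_up hMc hY hNc hd hMK (hKN.trans Set.subset_union_right)
      have hd2 : SI X (K i) (Set.range (p i).z) Y :=
        si_left (hz.trans hKsN) (si_symm hKic hY hNc hd1)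
      have hRl : Rl X (p i) (K i ∪ Y) (p i).z := by
        refine ⟨eqv_refl _ _, ?_⟩
        rw [hpA]
        exact (si_add_base hKic hzc hY).2 hd2
      have hW := (h1 V G X).2.2.2.1 (p i) (K i ∪ Y) (p i).z hsr hKY hRl
      have e2 : (p i).A ∪ (K i ∪ Y) = K i ∪ Y := by
        rw [hpA, ← Set.union_assoc, Set.union_self]
      rw [e2] at hW
      -- the modified family
      let S2 : Fin m → Set V := fun j => if j ∈ J then ∅ else S j
      have hS2 : ∀ j, S2 j ⊆ S j := by
        intro j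
        simp only [S2]
        split_ifs
        · exact Set.empty_subset _
        · exact subset_rfl
      have hS2c : ∀ j, (S2 j).Countable := fun j => (hS j).mono (hS2 j)
      have hI2 : Ind X (M ∪ Y) S2 :=
        (h6 V G X (M ∪ Y) hMY).2.2.2.2.1 (Fin m) S S2 hS hS2c hb (fun j => Or.inl (hS2 j))
      have hU2 : (⋃ j, S2 j) = ⋃ j ∈ {j | j ∉ J}, S j := by
        ext x
        simp only [Set.mem_iUnion, S2]
        constructor
        · rintro ⟨j, hj⟩
          by_cases h : j ∈ J
          · rw [if_pos h] at hj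
            exact absurd hj (Set.notMem_empty x)
          · rw [if_neg h] at hj
            exact ⟨j, h, hj⟩
        · rintro ⟨j, h, hj⟩
          refine ⟨j, ?_⟩
          rw [if_neg h]
          exact hj
      have e3 : M ∪ Y ∪ K i = K i ∪ Y := by
        ext x
        constructor
        · rintro ((h | h) | h)
          · exact Or.inl (hMK h)
          · exact Or.inr h
          · exact Or.inl h
        · rintro (h | h)
          · exact Or.inr h
          · exact Or.inl (Or.inr h)
      have hI3 : Ind X (K i ∪ Y) S2 := by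
        have := (h6 V G X (M ∪ Y) hMY).2.2.2.1 (Fin m) S2 (K i) hS2c hKic hI2
          (by rw [hU2]; exact hJ)
        rwa [e3] at this
      obtain ⟨J1, hJ1c, hJ1⟩ := hW ∅ Set.countable_empty si_empty_right m S2 hS2c
        (by rw [Set.union_empty]; exact hI3)
      rw [Set.union_empty] at hJ1
      refine ⟨J ∪ J1, (Finset.card_union_le J J1).trans (by omega), ?_⟩
      set T : Set V := ⋃ j ∈ {j | j ∉ J ∪ J1}, S j with hTdef
      have hTc : T.Countable := hT _
      have hT1 : T ⊆ ⋃ j ∈ {j | j ∉ J1}, S2 j := by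
        rw [hTdef]
        refine Set.iUnion₂_subset fun j hj => ?_
        have hj1 : j ∉ J := fun h => hj (Finset.mem_union_left _ h)
        have hj2 : j ∉ J1 := fun h => hj (Finset.mem_union_right _ h)
        intro x hx
        simp only [Set.mem_iUnion]
        refine ⟨j, hj2, ?_⟩
        simp only [S2]
        rw [if_neg hj1]
        exact hx
      have hT2 : T ⊆ ⋃ j ∈ {j | j ∉ J}, S j := by
        rw [hTdef]
        refine Set.iUnion₂_subset fun j hj => ?_
        have hj1 : j ∉ J := fun h => hj (Finset.mem_union_left _ h)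
        intro x hx
        simp only [Set.mem_iUnion]
        exact ⟨j, hj1, hx⟩
      have hs1 : SI X (K i ∪ Y) T (Set.range (p i).z) := si_left hT1 hJ1
      have hs2 : SI X (K i) (Set.range (p i).z) (Y ∪ T) :=
        si_trans hKic hzc hY hTc hd2 (si_symm hKY hTc hzc hs1)
      have hs3 : SI X (K i) (Y ∪ T) (K (i + 1)) :=
        (h3 V G X (K i) (Set.range (p i).z) (Y ∪ T) (K (i + 1)) hKi hzc (hY.union hTc) hat
          (si_symm hKic hzc (hY.union hTc) hs2)).1
      have hs4 : SI X (K i ∪ Y) T (K (i + 1)) :=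
        ((si_unionl hKic hY hKsc hTc).1 hs3).2
      have hs5 : SI X (M ∪ Y) T (K i ∪ K (i + 1)) := by
        refine si_trans hMY hTc hKic hKsc (si_left hT2 hJ) ?_
        rw [e3]
        exact hs4
      exact si_right hMY hTc (hKic.union hKsc) Set.subset_union_right hs5
  -- (f)
  obtain ⟨J, hJc, hJ⟩ := he k le_rfl
  have hKkc : (K k).Countable := (hch.mdl k le_rfl).1
  refine ⟨J, hJc, ?_⟩
  have f1 : SI X (M ∪ Y) (⋃ j ∈ {j | j ∉ J}, S j) u := si_right hMY (hT J) hKkc hch.last hJ
  have f2 : SI X (A ∪ Y) (⋃ j ∈ {j | j ∉ J}, S j) (M ∪ u) := by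
    refine si_trans hAY (hT J) hMc hu (si_left (hTS J) hb1) ?_
    rw [e1]
    exact f1
  exact si_right hAY (hT J) (hMc.union hu) Set.subset_union_right f2

theorem st_WT (h1 : ST_WBB) (h2 : ST_CHN) (h3 : ST_DOM) (h4 : ST_PRIM) (h5 : ST_MDLB)
    (h6 : ST_IND) : ST_WT := by
  classical
  intro V G _ _ X A u hA hu
  rcases isEmpty_or_nonempty V with hV | hV
  · refine ⟨0, fun Y _ _ m S _ _ => ⟨∅, by simp, ?_⟩⟩
    have e : ∀ Z : Set V, Z = ∅ := fun Z => Set.eq_empty_of_isEmpty Z
    rw [e (⋃ i ∈ {i | i ∉ (∅ : Finset (Fin m))}, S i)]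
    exact si_empty_left
  have huc : u.Countable := hu.countable
  obtain ⟨M, hM, hAM, hMu⟩ := (h5 V G X).2.1 A u A subset_rfl hA huc
    (si_self_left hA huc subset_rfl)
  obtain ⟨N0, hN0, hN0s⟩ := st_SATM V G X (M ∪ u) (hM.1.union huc)
  have hN0m : Mdl X N0 := (h5 V G X).1 N0 hN0s
  obtain ⟨N, hNN0, hNat⟩ := h4 V G X (M ∪ u) N0 hN0m hN0
  obtain ⟨k, K, p, hch⟩ := h2 V G X M N u hM hNat.1 (Set.subset_union_left.trans hNat.2.1)
    (Set.subset_union_right.trans hNat.2.1) hu
  refine ⟨k, ?_⟩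
  intro Y hY huY m S hS hI
  have hNc : N.Countable := hNat.1.1
  have hSs : (⋃ i, S i).Countable := Set.countable_iUnion hS
  obtain ⟨g, hg, hgN⟩ := si_ex (X := X) (hA.union huc) hNc (hY.union hSs)
  have hg' : g⁻¹ ∈ Fx G (A ∪ u) := inv_mem hg
  have hgA : g ∈ Fx G A := (fx_union.1 hg).1
  have hgA' : g⁻¹ ∈ Fx G A := (fx_union.1 hg').1
  have hgu : g ∈ Fx G u := (fx_union.1 hg).2
  have hgu' : g⁻¹ ∈ Fx G u := (fx_union.1 hg').2
  have hY' : (tr g⁻¹ Y).Countable := tr_countable _ hY
  have hS' : ∀ i, (tr g⁻¹ (S i)).Countable := fun i => tr_countable _ (hS i)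
  have key := wt_main h1 h3 h6 X A u M N k K p hA huc hM hAM hMu hNat hch (tr g⁻¹ Y) hY'
    (by
      have := (si_fx (X := X) hA huc hY hgA').2 huY
      rwa [tr_fx hgu'] at this) m (fun i => tr g⁻¹ (S i)) hS'
    (by
      have := (h6 V G X (A ∪ Y) (hA.union hY)).2.2.2.2.2.2.1 (Fin m) S g⁻¹ hS hI
      rwa [tr_union, tr_fx hgA'] at this)
    (by
      have := (si_fx (X := X) (hA.union huc) (tr_countable g hNc) (hY.union hSs) hg').2 hgN
      rwa [tr_inv_tr, tr_union, tr_iUnion] at this)
  obtain ⟨J, hJc, hJ⟩ := key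
  refine ⟨J, hJc, ?_⟩
  have hTc : (⋃ i ∈ {i | i ∉ J}, tr g⁻¹ (S i)).Countable :=
    (Set.countable_iUnion hS').mono (Set.iUnion₂_subset fun i _ =>
      Set.subset_iUnion (fun i => tr g⁻¹ (S i)) i)
  have := (si_tr (X := X) (hA.union hY') hTc huc g).2 hJ
  rw [tr_union, tr_fx hgA, tr_tr_inv, tr_fx hgu] at this
  have e : tr g (⋃ i ∈ {i | i ∉ J}, tr g⁻¹ (S i)) = ⋃ i ∈ {i | i ∉ J}, S i := by
    ext x
    rw [mem_tr]
    simp only [Set.mem_iUnion, mem_tr, inv_inv, smul_inv_smul]
  rwa [e] at this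

end Pool.Agent.Helper90.MZ
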